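import Pool.Agent.Results.MP_0c861e_co.LabelledPrimitive

set_option autoImplicit false

/-!
# Many one-point extensions of a large convex geometry
-/

namespace Pool.Agent.U728.CGeo

open Finset Pool.Agent.R129.CG
open Pool.Agent.Results.MP_0c861e_co.LabelledPrimitive (L N L_succ L_anti L_le L_pos L_add N_le f)

section fam

variable {X : Type} [Finite X] {G : Set (Set X)}

/-- The members of `G` with fewer than `k` elements, the empty set, and the members of `A`. -/
def low (G : Set (Set X)) (k : ℕ) (A : Set (Set X)) : Set (Set X) :=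
  {K | K = ∅ ∨ (K ∈ G ∧ (K.ncard < k ∨ K ∈ A))}

omit [Finite X] in
theorem low_subset (hG : IsCG G) (k : ℕ) (A : Set (Set X)) : low G k A ⊆ G := by
  rintro K (rfl | h)
  · exact hG.empty
  · exact h.1

theorem low_down {k : ℕ} {A : Set (Set X)} (hA : ∀ K ∈ A, K.ncard = k)
    {K F : Set X} (hK : K ∈ low G k A) (hF : F ∈ G) (hFK : F ⊆ K) : F ∈ low G k A := by
  by_cases he : F = K
  · rw [he]; exact hK
  · have h1 : F.ncard < K.ncard := Set.ncard_lt_ncard (Set.ssubset_iff_subset_ne.2 ⟨hFK, he⟩)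
    rcases hK with hK | ⟨_, hK | hK⟩
    · rw [hK, Set.ncard_empty] at h1
      omega
    · exact Or.inr ⟨hF, Or.inl (h1.trans hK)⟩
    · exact Or.inr ⟨hF, Or.inl (by rw [hA K hK] at h1; exact h1)⟩

theorem low_good (hG : IsCG G) {k : ℕ} {A : Set (Set X)} (hA : ∀ K ∈ A, K.ncard = k) :
    Good G (low G k A) where
  empty := Or.inl rfl
  inter := fun _ hF _ hF' => low_down hA hF
    (hG.inter _ (low_subset hG k A hF) _ (low_subset hG k A hF')) Set.inter_subset_left
  mixed := fun _ hF _ hK => low_down hA hK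
    (hG.inter _ hF _ (low_subset hG k A hK)) Set.inter_subset_right
  ext := fun _ hK => Or.inl (low_subset hG k A hK)

omit [Finite X] in
theorem low_inj {k : ℕ} (hk : 1 ≤ k) {A B : Set (Set X)} (hAG : A ⊆ G) (hBG : B ⊆ G)
    (hA : ∀ K ∈ A, K.ncard = k) (hB : ∀ K ∈ B, K.ncard = k) (h : low G k A = low G k B) :
    A = B := by
  have key : ∀ {A B : Set (Set X)}, A ⊆ G → (∀ K ∈ A, K.ncard = k) → low G k A = low G k B →
      A ⊆ B := by
    intro A B hAG hA h K hK
    have h1 : K ∈ low G k B := by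
      rw [← h]
      exact Or.inr ⟨hAG hK, Or.inr hK⟩
    have h2 := hA K hK
    rcases h1 with h1 | ⟨_, h1 | h1⟩
    · rw [h1, Set.ncard_empty] at h2
      omega
    · omega
    · exact h1
  exact Set.Subset.antisymm (key hAG hA h) (key hBG hB h.symm)

/-- A large family has many members of the same positive cardinality. -/
theorem exists_level (G : Set (Set X)) (w : ℕ) (hX : 1 ≤ Nat.card X)
    (h : Nat.card X * w + 1 ≤ G.ncard) :
    ∃ k, 1 ≤ k ∧ w ≤ {K | K ∈ G ∧ K.ncard = k}.ncard := by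
  classical
  by_contra hcon
  push Not at hcon
  have h1 : G ⊆ {∅} ∪ ⋃ k ∈ Finset.Icc 1 (Nat.card X), {K | K ∈ G ∧ K.ncard = k} := by
    intro K hK
    by_cases h0 : K = ∅
    · exact Or.inl h0
    · right
      rw [Set.mem_iUnion₂]
      refine ⟨K.ncard, ?_, hK, rfl⟩
      rw [Finset.mem_Icc]
      refine ⟨?_, Set.ncard_le_card K⟩
      exact (Set.ncard_pos (Set.toFinite K)).2 (Set.nonempty_iff_ne_empty.2 h0)
  have h2 := Set.ncard_le_ncard h1 (Set.toFinite _)
  have h3 := (Set.ncard_union_le ({∅} : Set (Set X))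
    (⋃ k ∈ Finset.Icc 1 (Nat.card X), {K | K ∈ G ∧ K.ncard = k}))
  have h4 := Finset.set_ncard_biUnion_le (Finset.Icc 1 (Nat.card X))
    (fun k => {K | K ∈ G ∧ K.ncard = k})
  rw [Set.ncard_singleton] at h3
  have h5 : ∑ i ∈ Finset.Icc 1 (Nat.card X), {K | K ∈ G ∧ K.ncard = i}.ncard <
      ∑ i ∈ Finset.Icc 1 (Nat.card X), w := by
    apply Finset.sum_lt_sum_of_nonempty
    · exact ⟨1, by simp; omega⟩
    · intro i hi
      exact hcon i (Finset.mem_Icc.1 hi).1
  rw [Finset.sum_const, Nat.card_Icc, smul_eq_mul, Nat.add_sub_cancel] at h5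
  omega

/-- The number of the one-point extensions of the geometries with more than `|X| w` members. -/
theorem num_option_ge (w : ℕ) (hX : 1 ≤ Nat.card X) :
    2 ^ w * {G : Set (Set X) | IsCG G ∧ Nat.card X * w + 1 ≤ G.ncard}.ncard ≤ num (Option X) := by
  classical
  have hch : ∀ G : {G : Set (Set X) // IsCG G ∧ Nat.card X * w + 1 ≤ G.ncard},
      ∃ k, 1 ≤ k ∧ Nonempty (Fin w ↪ {K | K ∈ G.1 ∧ K.ncard = k}) := by
    intro G
    obtain ⟨k, hk, hw⟩ := exists_level G.1 w hX G.2.2
    refine ⟨k, hk, ?_⟩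
    have hfin : Finite {K | K ∈ G.1 ∧ K.ncard = k} := inferInstance
    have hfin' := Fintype.ofFinite {K | K ∈ G.1 ∧ K.ncard = k}
    apply Function.Embedding.nonempty_of_card_le
    rw [Fintype.card_fin, ← Nat.card_eq_fintype_card, Nat.card_coe_set_eq]
    exact hw
  choose k hk e using hch
  let A : ∀ _ : {G : Set (Set X) // IsCG G ∧ Nat.card X * w + 1 ≤ G.ncard},
      Set (Fin w) → Set (Set X) := fun G B => (fun i => ((e G).some i : Set X)) '' B
  have hA : ∀ G B, ∀ K ∈ A G B, K.ncard = k G := by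
    rintro G B _ ⟨i, -, rfl⟩
    exact ((e G).some i).2.2
  have hAG : ∀ G B, A G B ⊆ G.1 := by
    rintro G B _ ⟨i, -, rfl⟩
    exact ((e G).some i).2.1
  have hcard : Nat.card (Set (Fin w) × {G : Set (Set X) // IsCG G ∧
      Nat.card X * w + 1 ≤ G.ncard}) =
      2 ^ w * {G : Set (Set X) | IsCG G ∧ Nat.card X * w + 1 ≤ G.ncard}.ncard := by
    rw [Nat.card_prod, ← Nat.card_coe_set_eq, Nat.card_eq_fintype_card (α := Set (Fin w)),
      Fintype.card_set, Fintype.card_fin]
    rfl
  rw [← hcard]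
  unfold num
  refine Nat.card_le_card_of_injective
    (fun p => ⟨extFam p.2.1 (low p.2.1 (k p.2) (A p.2 p.1)),
      extFam_cg p.2.2.1 (low_good p.2.2.1 (hA p.2 p.1))⟩) ?_
  rintro ⟨B, G⟩ ⟨B', G'⟩ h
  simp only [Subtype.mk.injEq] at h
  obtain ⟨e1, e2⟩ := extFam_inj h
  have e3 : G = G' := Subtype.ext e1
  subst e3
  have e4 := low_inj (hk G) (hAG G B) (hAG G B') (hA G B) (hA G B') e2
  have hinj : Function.Injective (fun i => ((e G).some i : Set X)) := fun i j hij =>
    (e G).some.injective (Subtype.ext hij)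
  have e5 : B = B' := hinj.image_injective e4
  rw [e5]

/-- There are few families with at most `m` members. -/
theorem few_small (m : ℕ) :
    {G : Set (Set X) | IsCG G ∧ G.ncard ≤ m}.ncard ≤ 2 ^ (Nat.card X * m) := by
  classical
  have hfin := Fintype.ofFinite X
  have h1 : {G : Set (Set X) | IsCG G ∧ G.ncard ≤ m} ⊆
      Set.range (fun g : Fin m → Set X => Set.range g) := by
    rintro G ⟨hG, hm⟩
    have hne : G.Nonempty := ⟨∅, hG.empty⟩
    have hGf : Finite G := inferInstance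
    obtain ⟨g, hg⟩ : ∃ g : Fin m → G, Function.Surjective g := by
      have hft := Fintype.ofFinite G
      have hcard : Fintype.card G ≤ Fintype.card (Fin m) := by
        rw [Fintype.card_fin, ← Nat.card_eq_fintype_card, Nat.card_coe_set_eq]
        exact hm
      obtain ⟨e⟩ := Function.Embedding.nonempty_of_card_le hcard
      have : Nonempty G := hne.to_subtype
      exact ⟨Function.invFun e, Function.invFun_surjective e.injective⟩
    refine ⟨fun i => (g i : Set X), ?_⟩
    ext K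
    constructor
    · rintro ⟨i, rfl⟩
      exact (g i).2
    · intro hK
      obtain ⟨i, hi⟩ := hg ⟨K, hK⟩
      exact ⟨i, by show (g i : Set X) = K; rw [hi]⟩
  refine (Set.ncard_le_ncard h1 (Set.toFinite _)).trans ?_
  rw [← Set.image_univ]
  refine (Set.ncard_image_le (Set.toFinite _)).trans ?_
  rw [Set.ncard_univ, Nat.card_eq_fintype_card, Fintype.card_fun, Fintype.card_fin,
    Fintype.card_set, ← Nat.card_eq_fintype_card, ← pow_mul]

end fam

/-- The growth of the number of geometries. -/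
theorem L_growth (n w : ℕ) (hn : 1 ≤ n) (h : 2 ^ (n * (n * w)) * 2 ≤ L n) :
    2 ^ w * L n ≤ 2 * L (n + 1) := by
  have h1 := num_option_ge (X := Fin n) w (by rw [Nat.card_eq_fintype_card, Fintype.card_fin]; exact hn)
  have h2 := few_small (X := Fin n) (n * w)
  rw [← num_congr (finSuccEquiv n)] at h1
  rw [Nat.card_eq_fintype_card, Fintype.card_fin] at h1 h2
  have h3 : L n ≤ {G : Set (Set (Fin n)) | IsCG G ∧ n * w + 1 ≤ G.ncard}.ncard +
      {G : Set (Set (Fin n)) | IsCG G ∧ G.ncard ≤ n * w}.ncard := by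
    refine le_trans ?_ (Set.ncard_union_le _ _)
    unfold L
    rw [show Nat.card {G : Set (Set (Fin n)) // IsCG G} = {G : Set (Set (Fin n)) | IsCG G}.ncard
      from Nat.card_coe_set_eq _]
    apply Set.ncard_le_ncard _ (Set.toFinite _)
    intro G hG
    rcases Nat.lt_or_ge (n * w) G.ncard with h4 | h4
    · exact Or.inl ⟨hG, h4⟩
    · exact Or.inr ⟨hG, h4⟩
  have h4 : L n ≤ 2 * {G : Set (Set (Fin n)) | IsCG G ∧ n * w + 1 ≤ G.ncard}.ncard := by omega
  calc 2 ^ w * L n ≤ 2 ^ w * (2 * {G : Set (Set (Fin n)) | IsCG G ∧ n * w + 1 ≤ G.ncard}.ncard) :=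
        Nat.mul_le_mul_left _ h4
    _ = 2 * (2 ^ w * {G : Set (Set (Fin n)) | IsCG G ∧ n * w + 1 ≤ G.ncard}.ncard) := by ring
    _ ≤ 2 * L (n + 1) := Nat.mul_le_mul_left _ h1

end Pool.Agent.U728.CGeo
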